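import Pool.Agent.MP_d479ed_co.Limit

open Filter Topology Pool.Agent.MP_d479ed_co

namespace Pool.Agent.Results.MP_d479ed_co.LimitRatio

/-- The limit `L = lim f_t(k)` equals `5 / 12`. -/
theorem result : Tendsto ft atTop (𝓝 (5 / 12)) :=
  ft_tendsto

end Pool.Agent.Results.MP_d479ed_co.LimitRatio
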